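import Pool.Agent.Y229.PA.Stm
import Pool.Agent.W206.CU.Pole

set_option autoImplicit false
set_option linter.unusedVariables false

/-! PA-GEN: poles of the Poincare series for generic coefficients up to the torus action. The proof
is that of `Pool.Agent.TH216.EP.gen_ordF0` (helper216), with the torus action added. -/

namespace Pool.Agent.Y232.PA

open MvPolynomial Pool.Agent.TH216.MF Pool.Agent.TH216.EP
open Pool.Agent.H628R4.TP Pool.Agent.W425.MM Pool.Agent.W425.GN
open Pool.Agent.W425.ND (spa)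
open Pool.Agent.W426.SM (gord IsRay face)
open Pool.Agent.W206.CU (poincare IsPoleOfOrder pole_ne_zero)
open Pool.Agent.W425.BF (B1 BD hz hz_support hz_eq cof gen_rootsJ shf shf_eval shf_ne)
open Pool.Agent.W425.SV (NP RelV Kil1)
open Pool.Agent.W425.PN (qpoly idn_of)

variable {r N : ℕ}

/-- nondegeneracy is invariant under the torus -/
theorem nonD_scale {F : Type} [Field F] {k : ℕ} (m : Fin k → Fin N → ℕ) (c d : Fin k → F)
    (t : Fin N → F) (ht : ∀ i, t i ≠ 0) (hd : ∀ j, d j = c j * ∏ i, t i ^ m j i)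
    (h : NonD m d) : NonD m c := by
  classical
  intro u z hz h0
  have key : ∀ j, d j * ∏ i, (z i / t i) ^ m j i = c j * ∏ i, z i ^ m j i := by
    intro j
    have h1 : ∏ i, (z i / t i) ^ m j i = (∏ i, z i ^ m j i) / ∏ i, t i ^ m j i := by
      rw [← Finset.prod_div_distrib]
      exact Finset.prod_congr rfl fun i _ => div_pow _ _ _
    have h2 : (∏ i, t i ^ m j i) ≠ 0 := Finset.prod_ne_zero_iff.2 fun i _ => pow_ne_zero _ (ht i)
    rw [hd, h1]
    field_simp
  obtain ⟨i, hi⟩ := h u (fun i => z i / t i) (fun i => div_ne_zero (hz i) (ht i)) (by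
    refine Eq.trans (Finset.sum_congr rfl fun j _ => ?_) h0
    split_ifs
    · exact key j
    · rfl)
  refine ⟨i, fun hcon => hi ?_⟩
  refine Eq.trans (Finset.sum_congr rfl fun j _ => ?_) hcon
  split_ifs
  · have := key j
    calc d j * ((m j i : F) * ∏ i, (z i / t i) ^ m j i)
        = (m j i : F) * (d j * ∏ i, (z i / t i) ^ m j i) := by ring
      _ = (m j i : F) * (c j * ∏ i, z i ^ m j i) := by rw [this]
      _ = _ := by ring
  · rfl

/-- the torus acts on the polynomial ring -/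
noncomputable def tor (t : Fin N → ℂ) (ht : ∀ i, t i ≠ 0) :
    MvPolynomial (Fin N) ℂ ≃ₐ[ℂ] MvPolynomial (Fin N) ℂ :=
  AlgEquiv.ofAlgHom (aeval (fun i => C (t i) * X i)) (aeval (fun i => C (t i)⁻¹ * X i))
    (by
      ext i
      simp only [AlgHom.comp_apply, aeval_X, map_mul, AlgHom.id_apply]
      rw [← mul_assoc]
      have h1 : (aeval fun i => C (t i) * X i : MvPolynomial (Fin N) ℂ →ₐ[ℂ] _) (C (t i)⁻¹) =
          C (t i)⁻¹ := by simp
      rw [h1, ← C_mul, inv_mul_cancel₀ (ht i), C_1, one_mul])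
    (by
      ext i
      simp only [AlgHom.comp_apply, aeval_X, map_mul, AlgHom.id_apply]
      rw [← mul_assoc]
      have h1 : (aeval fun i => C (t i)⁻¹ * X i : MvPolynomial (Fin N) ℂ →ₐ[ℂ] _) (C (t i)) =
          C (t i) := by simp
      rw [h1, ← C_mul, mul_inv_cancel₀ (ht i), C_1, one_mul])

theorem tor_spa (v : Fin r → Fin N → ℕ) (t : Fin N → ℂ) (ht : ∀ i, t i ≠ 0) (c : Fin r → ℂ) :
    tor t ht (spa v c) = spa v (fun j => c j * ∏ i, t i ^ v j i) := by
  unfold spa
  rw [map_sum]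
  refine Finset.sum_congr rfl fun j _ => ?_
  have h0 : ∀ p, tor t ht p = aeval (fun i => C (t i) * X i : Fin N → MvPolynomial (Fin N) ℂ) p :=
    fun p => rfl
  rw [h0, map_mul, map_prod]
  simp only [map_pow, aeval_X, mul_pow]
  rw [Finset.prod_mul_distrib, C_mul, map_prod, mul_assoc]
  congr 1
  · simp
  · simp only [map_pow]

theorem gen : Pool.Agent.Y229.PA.TaskGEN := by
  classical
  intro r N hr v hv hv0
  obtain ⟨h, h00⟩ : ∃ h : MvPolynomial (Fin N) ℤ, h = 0 := ⟨0, rfl⟩
  rw [← h00]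
  have hcard : h.support.card = 0 := by rw [h00]; simp
  have hh : ∀ w ∈ h.support, NP v w := by
    intro w hw
    rw [h00] at hw
    simp at hw
  have hvh : ∀ w ∈ h.support, ∀ j, ¬ ∀ x, w x = v j x := by
    intro w hw
    rw [h00] at hw
    simp at hw
  have hne : NeZero r := ⟨by omega⟩
  set hQ : MvPolynomial (Fin N) ℚ := MvPolynomial.map (Int.castRingHom ℚ) h with hhQ
  have hsub : ∀ w ∈ hQ.support, w ∈ h.support := fun w hw =>
    MvPolynomial.support_map_subset _ _ hw
  have hsup : ∀ w ∈ h.support, w ∈ hQ.support := by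
    intro w hw
    rw [mem_support_iff] at hw ⊢
    rw [hhQ, coeff_map]
    intro h0
    apply hw
    have h1 : ((coeff w h : ℤ) : ℚ) = 0 := h0
    exact_mod_cast h1
  have hhq : ∀ w ∈ hQ.support, NP v w := fun w hw => hh w (hsub w hw)
  obtain ⟨g0, hg0, hgb⟩ := univ pF4 pR1 hr v hv hQ
  obtain ⟨g1, hg1, h1⟩ := gen_rootsJ hr v hv hv0 hQ hhq
  obtain ⟨g2, hg2, h2⟩ := gen_nonDF pF4 hr v (weZ h) (we_npZ v h hh)
    (fun l => ((wcZ h l : ℤ) : ℚ))
  have hg3 : (∏ j : Fin r, (X j : MvPolynomial (Fin r) ℚ)) ≠ 0 :=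
    Finset.prod_ne_zero_iff.2 fun j _ => X_ne_zero j
  refine ⟨g0 * g1 * g2 * ∏ j : Fin r, (X j : MvPolynomial (Fin r) ℚ),
    mul_ne_zero (mul_ne_zero (mul_ne_zero hg0 hg1) hg2) hg3, fun c t ht hc'' => ?_⟩
  set cQ : Fin r → ℚ := fun j => (c j : ℚ) with hcQ
  obtain ⟨dQ, hdQ⟩ : ∃ dQ : Fin r → ℚ, dQ = fun j => (c j : ℚ) * ∏ i, t i ^ v j i := ⟨_, rfl⟩
  rw [← hdQ] at hc''
  have hdQj : ∀ j, dQ j = (c j : ℚ) * ∏ i, t i ^ v j i := fun j => by rw [hdQ]
  have htC : ∀ i, ((t i : ℚ) : ℂ) ≠ 0 := fun i => by exact_mod_cast ht i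
  have hdC : (fun j => ((dQ j : ℚ) : ℂ)) =
      fun j => ((cQ j : ℚ) : ℂ) * ∏ i, ((t i : ℚ) : ℂ) ^ v j i := by
    funext j
    rw [hdQj]
    push_cast
    rfl
  rw [map_mul] at hc''
  have hc' := left_ne_zero_of_mul hc''
  have hcne : ∀ j, c j ≠ 0 := by
    have h5 := right_ne_zero_of_mul hc''
    rw [map_prod] at h5
    intro j
    have h6 := Finset.prod_ne_zero_iff.1 h5 j (Finset.mem_univ j)
    rw [eval_X] at h6
    intro h7
    apply h6
    rw [hdQj, h7]
    simp
  have hc : aeval (fun j => ((dQ j : ℚ) : ℂ)) (g0 * g1 * g2) ≠ 0 := by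
    have h0 : aeval (fun j => ((dQ j : ℚ) : ℂ)) (g0 * g1 * g2) =
        ((eval dQ (g0 * g1 * g2) : ℚ) : ℂ) := by
      have h5 := aeval_algebraMap_apply ℂ dQ (g0 * g1 * g2)
      exact h5
    rw [h0]
    exact_mod_cast hc'
  rw [map_mul, map_mul] at hc
  have hb0 := hgb _ (left_ne_zero_of_mul (left_ne_zero_of_mul hc))
  have hb := h1 _ (right_ne_zero_of_mul (left_ne_zero_of_mul hc))
  have hnd := h2 _ (right_ne_zero_of_mul hc)
  set m : Fin (r + h.support.card) → Fin N → ℕ := Fin.append v (weZ h) with hm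
  set cc : Fin (r + h.support.card) → ℤ := Fin.append c (wcZ h) with hcc
  have hcast : (fun j => ((cc j : ℤ) : ℚ)) = Fin.append cQ (fun l => ((wcZ h l : ℤ) : ℚ)) :=
    append_map (fun q : ℤ => (q : ℚ)) c (wcZ h)
  have hnq : NonD m (fun j => algebraMap ℚ ℂ ((cc j : ℤ) : ℚ)) := by
    have h3 := append_map (fun q : ℚ => (q : ℂ)) cQ (fun l => ((wcZ h l : ℤ) : ℚ))
    have h4 : (fun j => algebraMap ℚ ℂ ((cc j : ℤ) : ℚ)) =
        fun j => (((Fin.append cQ (fun l => ((wcZ h l : ℤ) : ℚ)) j : ℚ)) : ℂ) := by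
      funext j
      rw [← hcast]
      rfl
    rw [h4, h3]
    refine nonD_scale m _ (Fin.append (fun j => ((dQ j : ℚ) : ℂ))
      (fun l => ((((wcZ h l : ℤ) : ℚ)) : ℂ))) (fun i => ((t i : ℚ) : ℂ)) htC ?_ hnd
    intro j
    refine Fin.addCases (fun j => ?_) (fun l => ?_) j
    · rw [Fin.append_left, Fin.append_left, hm, Fin.append_left]
      exact congrFun hdC j
    · exact absurd l.2 (by omega)
  have hid : ∀ u : Fin N → ℕ, Pool.Agent.W425.PN.Idn m (fun j => ((cc j : ℤ) : ℚ))
      (Finset.univ.filter fun j => ∑ i, u i * m j i = gord m u) := fun u =>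
    idn_of m (fun j => ((cc j : ℤ) : ℚ)) hnq u
  have hccne : ∀ j, cc j ≠ 0 := by
    intro j
    refine Fin.addCases (fun j => ?_) (fun l => ?_) j
    · rw [hcc, Fin.append_left]; exact hcne j
    · rw [hcc, Fin.append_right]
      exact mem_support_iff.1 (h.support.equivFin.symm l).2
  have hminj : Function.Injective m := by
    intro j j'
    refine Fin.addCases (fun j => ?_) (fun l => ?_) j <;>
      refine Fin.addCases (fun j' => ?_) (fun l' => ?_) j'
    · rw [hm, Fin.append_left, Fin.append_left]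
      intro h3
      rw [hv h3]
    · rw [hm, Fin.append_left, Fin.append_right]
      intro h3
      exact absurd (fun x => (congrFun h3 x).symm)
        (hvh _ (h.support.equivFin.symm l').2 j)
    · rw [hm, Fin.append_left, Fin.append_right]
      intro h3
      exact absurd (fun x => congrFun h3 x) (hvh _ (h.support.equivFin.symm l).2 j')
    · rw [hm, Fin.append_right, Fin.append_right]
      intro h3
      have h4 : (h.support.equivFin.symm l) = (h.support.equivFin.symm l') :=
        Subtype.ext (Finsupp.ext fun x => congrFun h3 x)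
      rw [h.support.equivFin.symm.injective h4]
  set m' : Fin (r + (kept v hQ).card) → Fin N → ℕ := Fin.append v (ke v hQ) with hm'
  have hminj' : Function.Injective m' := by
    intro j j'
    refine Fin.addCases (fun j => ?_) (fun l => ?_) j <;>
      refine Fin.addCases (fun j' => ?_) (fun l' => ?_) j'
    · rw [hm', Fin.append_left, Fin.append_left]
      intro h3
      rw [hv h3]
    · rw [hm', Fin.append_left, Fin.append_right]
      intro h3
      obtain ⟨w, hw, hwe, -⟩ := ke_mem v hQ l'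
      exact absurd (fun x => by rw [← hwe, ← congrFun h3 x]) (hvh w (hsub w hw) j)
    · rw [hm', Fin.append_left, Fin.append_right]
      intro h3
      obtain ⟨w, hw, hwe, -⟩ := ke_mem v hQ l
      exact absurd (fun x => by rw [← hwe, congrFun h3 x]) (hvh w (hsub w hw) j')
    · rw [hm', Fin.append_right, Fin.append_right]
      intro h3
      have h4 : ((kept v hQ).equivFin.symm l) = ((kept v hQ).equivFin.symm l') :=
        Subtype.ext (Finsupp.ext fun x => congrFun h3 x)
      rw [(kept v hQ).equivFin.symm.injective h4]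
  have hma : ∀ j', ∃ j, m j = m' j' := by
    intro j'
    refine Fin.addCases (fun j => ?_) (fun l => ?_) j'
    · exact ⟨Fin.castAdd _ j, by rw [hm, hm', Fin.append_left, Fin.append_left]⟩
    · obtain ⟨w, hw, hwe, -⟩ := ke_mem v hQ l
      refine ⟨Fin.natAdd r (h.support.equivFin ⟨w, hsub w hw⟩), ?_⟩
      rw [hm, hm', Fin.append_right, Fin.append_right]
      funext i
      rw [hwe]
      unfold weZ
      rw [Equiv.symm_apply_apply]
  have hmb : ∀ j, InC m' Finset.univ (m j) := by
    intro j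
    refine Fin.addCases (fun j => ?_) (fun l => ?_) j
    · rw [hm, Fin.append_left]
      exact inC_append v _ _ (inC_self v _ j (Finset.mem_univ _))
    · rw [hm, Fin.append_right]
      by_cases hC : InC v Finset.univ (weZ h l)
      · exact inC_append v _ _ hC
      · have hmem : (h.support.equivFin.symm l).1 ∈ kept v hQ :=
          (mem_kept v hQ _).2 ⟨hsup _ (h.support.equivFin.symm l).2, hC⟩
        have h3 : m' (Fin.natAdd r ((kept v hQ).equivFin ⟨_, hmem⟩)) = weZ h l := by
          rw [hm', Fin.append_right]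
          funext i
          unfold ke
          rw [Equiv.symm_apply_apply]
          rfl
        rw [← h3]
        exact inC_self _ _ _ (Finset.mem_univ _)
  have hf : spa v c + h = ∑ j, MvPolynomial.C (cc j) * ∏ i, MvPolynomial.X i ^ m j i := by
    rw [Fin.sum_univ_add]
    simp only [hm, hcc, Fin.append_left, Fin.append_right]
    rw [← h_eqZ h]
    rfl
  have hk : 0 < r + h.support.card := by omega
  intro p hpp T₀ μ hμ hP b hb0' hbf
  have hmap : MvPolynomial.map (Int.castRingHom ℂ) (spa v c + h) =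
      spa v (fun j => ((cQ j : ℚ) : ℂ)) + MvPolynomial.map (algebraMap ℚ ℂ) hQ := by
    rw [map_add, hhQ, MvPolynomial.map_map]
    congr 1
    unfold spa
    simp [hcQ]
  rw [hmap] at hbf
  have hQ0 : MvPolynomial.map (algebraMap ℚ ℂ) hQ = 0 := by
    rw [hhQ, h00, map_zero, map_zero]
  rw [hQ0, add_zero] at hbf
  replace hbf := Pool.Agent.W206.CU.isBFunction_iso
    (tor (fun i => ((t i : ℚ) : ℂ)) htC) hbf
  rw [tor_spa, ← hdC] at hbf
  rw [hQ0, add_zero] at hb hb0
  obtain ⟨h3, h4⟩ := hb b hbf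
  refine ⟨h3, h4, ?_⟩
  obtain ⟨α, hα⟩ := ratEP hk m cc hccne hid _ hf hpp T₀ μ hμ hP
  refine ⟨α, hα, fun hL => ?_⟩
  have hcast2 : ((-Real.log ‖T₀‖ / Real.log p : ℝ) : ℂ) = (α : ℂ) := by
    rw [hα]
    push_cast
    rfl
  have hnHP : ¬ HP v hQ α (b.rootMultiplicity (α : ℂ)) := by
    intro hHP
    have h5 := hb0 b ((bfun_iff _ _).1 hbf) α _ hHP
    exact Polynomial.pow_rootMultiplicity_not_dvd hb0' (α : ℂ) h5
  obtain ⟨θ, pol, hpol0, hrel, hmult⟩ := rel_of_not_HP v hv hv0 hQ hhq α _ hnHP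
  have h5 := ndEP2 hk m hminj m' hminj' hma hmb cc hccne hid _ hf hpp T₀ μ hμ hP pol hpol0 θ hrel
    (by
      have h6 : Real.log ‖T₀‖ / Real.log p = ((-α : ℚ) : ℝ) := by
        push_cast
        rw [← hα]
        ring
      rw [h6]
      exact hypS_kept (kept_map v h) hL)
  rw [hcast2] at h5 ⊢
  exact h5.trans hmult

end Pool.Agent.Y232.PA
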